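import Mathlib

namespace Pool.Agent.Results.MP_e86a57_co.Lim

/-- the ratio of automorphisms to lattice endomorphisms -/
noncomputable def ratio (L : Type) [Lattice L] [BoundedOrder L] : ℝ :=
  (Nat.card {f : BoundedLatticeHom L L // Function.Bijective f} : ℝ) /
    (Nat.card (BoundedLatticeHom L L) : ℝ)

inductive E (n m : ℕ) : Type
  | o | t | s (i : Fin n) | a | b | k (j : Fin m)

variable {n m : ℕ}

open E

def su : E n m → E n m → E n m
  | o, y => y
  | x, o => x
  | t, _ => t
  | _, t => t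
  | s i, s j => if i = j then s i else t
  | s _, _ => t
  | _, s _ => t
  | a, y => y
  | x, a => x
  | b, _ => b
  | _, b => b
  | k i, k j => if i = j then k i else b

def nf : E n m → E n m → E n m
  | t, y => y
  | x, t => x
  | o, _ => o
  | _, o => o
  | s i, s j => if i = j then s i else o
  | s _, _ => o
  | _, s _ => o
  | b, y => y
  | x, b => x
  | a, _ => a
  | _, a => a
  | k i, k j => if i = j then k i else a

instance : Max (E n m) := ⟨su⟩
instance : Min (E n m) := ⟨nf⟩
theorem sd (x y : E n m) : x ⊔ y = su x y := rfl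
theorem nd (x y : E n m) : x ⊓ y = nf x y := rfl

instance : Lattice (E n m) := Lattice.mk'
  (fun x y => by cases x <;> cases y <;> simp only [sd, su] <;> grind)
  (fun x y z => by cases x <;> cases y <;> cases z <;> simp only [sd, su] <;> grind [su])
  (fun x y => by cases x <;> cases y <;> simp only [nd, nf] <;> grind)
  (fun x y z => by cases x <;> cases y <;> cases z <;> simp only [nd, nf] <;> grind [nf])
  (fun x y => by cases x <;> cases y <;> simp only [sd, nd, su, nf] <;> grind [su])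
  (fun x y => by cases x <;> cases y <;> simp only [sd, nd, su, nf] <;> grind [nf])

instance : BoundedOrder (E n m) where
  top := t
  le_top x := sup_eq_right.1 (by cases x <;> rfl)
  bot := o
  bot_le x := sup_eq_right.1 (by cases x <;> rfl)

def eqv : E n m ≃ Fin n ⊕ Fin m ⊕ Fin 4 where
  toFun
    | s i => .inl i
    | k j => .inr (.inl j)
    | o => .inr (.inr 0)
    | t => .inr (.inr 1)
    | a => .inr (.inr 2)
    | b => .inr (.inr 3)
  invFun
    | .inl i => s i
    | .inr (.inl j) => k j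
    | .inr (.inr c) => ![o, t, a, b] c
  left_inv x := by cases x <;> rfl
  right_inv := by
    rintro (i | j | c)
    · rfl
    · rfl
    · fin_cases c <;> rfl

instance : Finite (E n m) := Finite.of_equiv _ eqv.symm

def phi (σ : Equiv.Perm (Fin n)) (τ : Equiv.Perm (Fin m)) : E n m → E n m
  | s i => s (σ i)
  | k j => k (τ j)
  | x => x

def Phi (p : Equiv.Perm (Fin n) × Equiv.Perm (Fin m)) :
    {f : BoundedLatticeHom (E n m) (E n m) // Function.Bijective f} :=
  ⟨{ toFun := phi p.1 p.2
     map_sup' := fun x y => by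
       cases x <;> cases y <;> simp only [sd, su, phi, EmbeddingLike.apply_eq_iff_eq] <;>
         split_ifs <;> rfl
     map_inf' := fun x y => by
       cases x <;> cases y <;> simp only [nd, nf, phi, EmbeddingLike.apply_eq_iff_eq] <;>
         split_ifs <;> rfl
     map_top' := rfl
     map_bot' := rfl }, Finite.injective_iff_bijective.1 fun x y (h : phi _ _ x = phi _ _ y) => by
       cases x <;> cases y <;> simp_all [phi]⟩

def emb : Bool ⊕ Fin m → E n m
  | .inl false => a
  | .inl true => b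
  | .inr j => k j

def pt (c : Option (Fin n)) (κ : Bool ⊕ Fin m) : E n m :=
  match c with
  | none => emb κ
  | some i => s i

def cp : E n m → Option (Fin n)
  | s i => some i
  | _ => none

theorem cp_pt (c : Option (Fin n)) (κ : Bool ⊕ Fin m) : cp (pt c κ) = c := by
  rcases c with _ | i
  · rcases κ with (_ | _) | j <;> rfl
  · rfl

theorem pt_ne (c : Option (Fin n)) (κ : Bool ⊕ Fin m) : pt c κ ≠ o ∧ pt c κ ≠ t := by
  rcases c with _ | i
  · rcases κ with (_ | _) | j <;> simp [pt, emb]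
  · simp [pt]

theorem compl_iff {x y : E n m} (x0 : x ≠ o) (x1 : x ≠ t) (y0 : y ≠ o) (y1 : y ≠ t) :
    (cp x ≠ cp y → x ⊔ y = t ∧ x ⊓ y = o) ∧ (x ⊔ y = t → cp x ≠ cp y) := by
  cases x <;> cases y <;> simp_all [sd, nd, su, nf, cp]
  split_ifs <;> simp

def psi (π : Equiv.Perm (Option (Fin n))) (κ : Bool ⊕ Fin m) : E n m → E n m
  | o => o
  | t => t
  | x => pt (π (cp x)) κ

theorem psi_eq (π : Equiv.Perm (Option (Fin n))) (κ : Bool ⊕ Fin m) {x : E n m} (x0 : x ≠ o)
    (x1 : x ≠ t) : psi π κ x = pt (π (cp x)) κ := by cases x <;> simp_all [psi]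

theorem same {x y : E n m} (x0 : x ≠ o) (x1 : x ≠ t) (y0 : y ≠ o) (y1 : y ≠ t) (h : cp x = cp y) :
    (x ⊔ y ≠ o ∧ x ⊔ y ≠ t ∧ cp (x ⊔ y) = cp x) ∧ x ⊓ y ≠ o ∧ x ⊓ y ≠ t ∧ cp (x ⊓ y) = cp x := by
  cases x <;> cases y <;> simp_all [sd, nd, su, nf, cp] <;> split_ifs <;> simp

def Psi (p : Equiv.Perm (Option (Fin n)) × (Bool ⊕ Fin m)) :
    {f : BoundedLatticeHom (E n m) (E n m) // ¬ Function.Bijective f} :=
  ⟨{ toFun := psi p.1 p.2
     map_sup' := fun x y => by
       by_cases x0 : x = o
       · subst x0; exact (bot_sup_eq y).symm ▸ (bot_sup_eq _).symm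
       by_cases y0 : y = o
       · subst y0; exact (sup_bot_eq x).symm ▸ (sup_bot_eq _).symm
       by_cases x1 : x = t
       · subst x1; exact (top_sup_eq y).symm ▸ (top_sup_eq _).symm
       by_cases y1 : y = t
       · subst y1; exact (sup_top_eq x).symm ▸ (sup_top_eq _).symm
       rw [psi_eq _ _ x0 x1, psi_eq _ _ y0 y1]
       by_cases h : cp x = cp y
       · obtain ⟨⟨a1, a2, a3⟩, -⟩ := same x0 x1 y0 y1 h
         rw [psi_eq _ _ a1 a2, a3, ← h, sup_idem]
       · rw [((compl_iff x0 x1 y0 y1).1 h).1, ((compl_iff (pt_ne _ _).1 (pt_ne _ _).2 (pt_ne _ _).1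
           (pt_ne _ _).2).1 (by rwa [cp_pt, cp_pt, Ne, p.1.injective.eq_iff])).1]
         rfl
     map_inf' := fun x y => by
       by_cases x0 : x = o
       · subst x0; exact (bot_inf_eq y).symm ▸ (bot_inf_eq _).symm
       by_cases y0 : y = o
       · subst y0; exact (inf_bot_eq x).symm ▸ (inf_bot_eq _).symm
       by_cases x1 : x = t
       · subst x1; exact (top_inf_eq y).symm ▸ (top_inf_eq _).symm
       by_cases y1 : y = t
       · subst y1; exact (inf_top_eq x).symm ▸ (inf_top_eq _).symm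
       rw [psi_eq _ _ x0 x1, psi_eq _ _ y0 y1]
       by_cases h : cp x = cp y
       · obtain ⟨-, a1, a2, a3⟩ := same x0 x1 y0 y1 h
         rw [psi_eq _ _ a1 a2, a3, ← h, inf_idem]
       · rw [((compl_iff x0 x1 y0 y1).1 h).2, ((compl_iff (pt_ne _ _).1 (pt_ne _ _).2 (pt_ne _ _).1
           (pt_ne _ _).2).1 (by rwa [cp_pt, cp_pt, Ne, p.1.injective.eq_iff])).2]
         rfl
     map_top' := rfl
     map_bot' := rfl }, fun h => by cases h.1 (a₁ := a) (a₂ := b) rfl⟩

theorem eq_pt {x : E n m} (x0 : x ≠ o) (x1 : x ≠ t) : ∃ κ, x = pt (cp x) κ := by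
  cases x with
  | o => exact (x0 rfl).elim
  | t => exact (x1 rfl).elim
  | s i => exact ⟨.inl true, rfl⟩
  | a => exact ⟨.inl false, rfl⟩
  | b => exact ⟨.inl true, rfl⟩
  | k j => exact ⟨.inr j, rfl⟩

section hom
variable (f : BoundedLatticeHom (E n m) (E n m))

theorem proper (hn : 2 ≤ n) {x : E n m} (x0 : x ≠ o) (x1 : x ≠ t) : f x ≠ o ∧ f x ≠ t := by
  obtain ⟨c, d, h1, h2, h3⟩ : ∃ c d : Option (Fin n), cp x ≠ c ∧ cp x ≠ d ∧ c ≠ d := by
    have : 2 < Fintype.card (Option (Fin n)) := by simp; omega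
    obtain ⟨u, v, w, a1, a2, a3⟩ := Fintype.two_lt_card_iff.1 this
    by_cases e1 : cp x = u
    · exact ⟨v, w, e1 ▸ a1, e1 ▸ a2, a3⟩
    by_cases e2 : cp x = v
    · exact ⟨u, w, e1, e2 ▸ a3, a2⟩
    · exact ⟨u, v, e1, e2, a1⟩
  let κ : Bool ⊕ Fin m := .inl true
  have b1 := (compl_iff x0 x1 (pt_ne c κ).1 (pt_ne c κ).2).1 (by rwa [cp_pt])
  have b2 := (compl_iff x0 x1 (pt_ne d κ).1 (pt_ne d κ).2).1 (by rwa [cp_pt])
  have b3 := (compl_iff (pt_ne c κ).1 (pt_ne c κ).2 (pt_ne d κ).1 (pt_ne d κ).2).1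
    (by rwa [cp_pt, cp_pt])
  have ft : f t = ⊤ := map_top f
  have fo : f o = ⊥ := map_bot f
  constructor
  · intro (h : f x = ⊥)
    have c1 := congrArg f b1.1
    have c2 := congrArg f b2.1
    have c3 := congrArg f b3.2
    rw [map_sup, h, bot_sup_eq, ft] at c1 c2
    rw [map_inf, c1, c2, fo, inf_idem] at c3
    cases c3
  · intro (h : f x = ⊤)
    have c1 := congrArg f b1.2
    have c2 := congrArg f b2.2
    have c3 := congrArg f b3.1
    rw [map_inf, h, top_inf_eq, fo] at c1 c2
    rw [map_sup, c1, c2, ft, sup_idem] at c3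
    cases c3

theorem cp_iff (hn : 2 ≤ n) {x y : E n m} (x0 : x ≠ o) (x1 : x ≠ t) (y0 : y ≠ o) (y1 : y ≠ t) :
    cp (f x) = cp (f y) ↔ cp x = cp y := by
  obtain ⟨a0, a1⟩ := proper f hn x0 x1
  obtain ⟨b0, b1⟩ := proper f hn y0 y1
  constructor
  · intro h
    by_contra hc
    refine (compl_iff a0 a1 b0 b1).2 ?_ h
    rw [← map_sup, ((compl_iff x0 x1 y0 y1).1 hc).1]; exact map_top f
  · intro h
    by_contra hc
    obtain ⟨⟨c0, c1, -⟩, -⟩ := same x0 x1 y0 y1 h
    exact (proper f hn c0 c1).2 (by rw [map_sup]; exact ((compl_iff a0 a1 b0 b1).1 hc).1)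

theorem kinj (hm : 3 ≤ m) (h : f a ≠ f b) :
    (∀ i, f (k i) ≠ f a ∧ f (k i) ≠ f b) ∧ ∀ i j, f (k i) = f (k j) → i = j := by
  have s1 : ∀ i j : Fin m, i ≠ j → f (k i) ⊔ f (k j) = f b ∧ f (k i) ⊓ f (k j) = f a :=
    fun i j hij => by rw [← map_sup, ← map_inf]; simp [sd, nd, su, nf, hij]
  have s2 : ∀ i : Fin m, f a ⊔ f (k i) = f (k i) ∧ f b ⊓ f (k i) = f (k i) :=
    fun i => by rw [← map_sup, ← map_inf]; exact ⟨rfl, rfl⟩
  refine ⟨fun i => ?_, fun i j e => ?_⟩
  · obtain ⟨c, d, h1, h2, h3⟩ : ∃ c d : Fin m, i ≠ c ∧ i ≠ d ∧ c ≠ d := by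
      have : 2 < Fintype.card (Fin m) := by simp; omega
      obtain ⟨u, v, w, a1, a2, a3⟩ := Fintype.two_lt_card_iff.1 this
      by_cases e1 : i = u
      · exact ⟨v, w, e1 ▸ a1, e1 ▸ a2, a3⟩
      by_cases e2 : i = v
      · exact ⟨u, w, e1, e2 ▸ a3, a2⟩
      · exact ⟨u, v, e1, e2, a1⟩
    have a1 := s1 i c h1
    have a2 := s1 i d h2
    have a3 := s1 c d h3
    constructor
    · intro e
      rw [e, (s2 _).1] at a1 a2
      rw [a1.1, a2.1, inf_idem] at a3
      exact h a3.2.symm
    · intro e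
      rw [e, (s2 _).2] at a1 a2
      rw [a1.2, a2.2, sup_idem] at a3
      exact h a3.1
  · by_contra hij
    have := s1 i j hij
    rw [e, sup_idem, inf_idem] at this
    exact h (this.2.symm.trans this.1)

theorem rigid (hn : 2 ≤ n) (hm : 3 ≤ m) (h : f a ≠ f b) : ∃ p, (Phi p).1 = f := by
  obtain ⟨k1, k2⟩ := kinj f hm h
  have hk : ∀ i, f a = a ∧ f b = b ∧ ∃ j, f (k i) = k j := fun i => by
    have l1 : f a ⊔ f (k i) = f (k i) := by rw [← map_sup]; rfl
    have l2 : f (k i) ⊔ f b = f b := by rw [← map_sup]; rfl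
    have p1 := proper f hn (x := a) nofun nofun
    have p2 := proper f hn (x := b) nofun nofun
    have := k1 i
    revert l1 l2 p1 p2 this
    generalize f a = x
    generalize f b = y
    generalize f (k i) = z
    cases x <;> cases y <;> cases z <;> simp only [sd, su] <;> grind
  obtain ⟨fa, fb, -⟩ := hk ⟨0, by omega⟩
  choose τ hτ using fun i => (hk i).2.2
  have hs : ∀ i, ∃ j, f (s i) = s j := fun i => by
    have p := proper f hn (x := s i) nofun nofun
    have q := (cp_iff f hn (x := s i) (y := a) nofun nofun nofun nofun).not.2 nofun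
    rw [fa] at q
    revert p q
    generalize f (s i) = x
    cases x <;> simp [cp]
  choose σ hσ using hs
  refine ⟨(Equiv.ofBijective σ (Finite.injective_iff_bijective.1 fun i j e => ?_),
    Equiv.ofBijective τ (Finite.injective_iff_bijective.1 fun i j e => k2 i j ?_)), ?_⟩
  · have := (cp_iff f hn (x := s i) (y := s j) nofun nofun nofun nofun).1 (by rw [hσ, hσ, e])
    exact Option.some_injective _ this
  · rw [hτ, hτ, e]
  · ext x
    cases x with
    | o => exact (map_bot f).symm
    | t => exact (map_top f).symm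
    | s i => exact (hσ i).symm
    | a => exact fa.symm
    | b => exact fb.symm
    | k j => exact (hτ j).symm

theorem soft (hn : 2 ≤ n) (h : f a = f b) : ∃ p, (Psi p).1 = f := by
  let r : Option (Fin n) → E n m := fun c => pt c (.inl false)
  let π : Equiv.Perm (Option (Fin n)) := Equiv.ofBijective (fun c => cp (f (r c)))
    (Finite.injective_iff_bijective.1 fun c d e => by
      have := (cp_iff f hn (pt_ne c _).1 (pt_ne c _).2 (pt_ne d _).1 (pt_ne d _).2).1 e
      rwa [cp_pt, cp_pt] at this)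
  obtain ⟨κ, hκ⟩ := eq_pt (proper f hn (pt_ne (π.symm none) (.inl false)).1 (pt_ne _ _).2).1
    (proper f hn (pt_ne (π.symm none) (.inl false)).1 (pt_ne _ _).2).2
  have hr : ∀ c, f (r c) = pt (π c) κ := fun c => by
    rcases e : π c with _ | i
    · rw [(Equiv.eq_symm_apply π).2 e, hκ]
      exact congrArg (pt · κ) (π.apply_symm_apply none)
    · obtain ⟨κ', h'⟩ := eq_pt (proper f hn (pt_ne c (.inl false)).1 (pt_ne _ _).2).1
        (proper f hn (pt_ne c (.inl false)).1 (pt_ne _ _).2).2
      rw [h', show cp (f (pt c (.inl false))) = some i from e]; rfl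
  refine ⟨(π, κ), ?_⟩
  ext x
  cases x with
  | o => exact (map_bot f).symm
  | t => exact (map_top f).symm
  | s i => exact (hr (some i)).symm
  | a => exact (hr none).symm
  | b => exact (hr none).symm.trans h
  | k j =>
    refine (hr none).symm.trans ?_
    show f a = f (k j)
    calc f a = f b ⊓ (f a ⊔ f (k j)) := by rw [← h, inf_sup_self]
      _ = f (k j) := by rw [← map_sup, ← map_inf]; rfl
end hom

theorem ratio_eq (hn : 2 ≤ n) (hm : 3 ≤ m) :
    ratio (E n m) = 1 / (1 + (n + 1) * ((m + 2) / m.factorial)) := by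
  classical
  have : Finite (BoundedLatticeHom (E n m) (E n m)) := DFunLike.finite _
  have c1 : Nat.card {f : BoundedLatticeHom (E n m) (E n m) // Function.Bijective f} =
      n.factorial * m.factorial := by
    rw [← Nat.card_eq_of_bijective Phi ⟨fun p q h => ?_, fun f => ?_⟩]
    · simp [Fintype.card_perm]
    · refine Prod.ext (Equiv.ext fun i => ?_) (Equiv.ext fun i => ?_)
      · exact s.inj (congr(($h).1 (s i)))
      · exact k.inj (congr(($h).1 (k i)))
    · obtain ⟨p, hp⟩ := rigid f.1 hn hm fun e => by cases f.2.1 e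
      exact ⟨p, Subtype.ext hp⟩
  have c2 : Nat.card {f : BoundedLatticeHom (E n m) (E n m) // ¬ Function.Bijective f} =
      (n + 1).factorial * (2 + m) := by
    rw [← Nat.card_eq_of_bijective Psi ⟨fun p q h => ?_, fun f => ?_⟩]
    · simp [Fintype.card_perm]
    · have e : ∀ c, pt (p.1 c) p.2 = pt (q.1 c) q.2 := fun c => by
        rcases c with _ | i
        · exact congr(($h).1 a)
        · exact congr(($h).1 (s i))
      have e1 : p.1 = q.1 := Equiv.ext fun c => by simpa only [cp_pt] using congrArg cp (e c)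
      refine Prod.ext e1 ?_
      have := e (p.1.symm none)
      rw [← e1, Equiv.apply_symm_apply] at this
      revert this
      rcases p.2 with (_ | _) | i <;> rcases q.2 with (_ | _) | j <;> simp [pt, emb]
    · obtain ⟨p, hp⟩ := soft f.1 hn (by
        by_contra e
        obtain ⟨p, hp⟩ := rigid f.1 hn hm e
        exact f.2 (hp ▸ (Phi p).2))
      exact ⟨p, Subtype.ext hp⟩
  rw [ratio, ← Nat.card_congr (Equiv.sumCompl fun f : BoundedLatticeHom (E n m) (E n m) =>
    Function.Bijective f), Nat.card_sum, c1, c2, Nat.factorial_succ]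
  push_cast
  field_simp
  ring

open Filter Topology in
theorem result (x : ℝ) (hx : x ∈ Set.Icc (0 : ℝ) 1) :
    ∃ (L : ℕ → Type) (_ : ∀ i, Lattice (L i)) (_ : ∀ i, BoundedOrder (L i)),
      (∀ i, Finite (L i)) ∧ Tendsto (fun i => Nat.card (L i)) atTop atTop ∧
      Tendsto (fun i => ratio (L i)) atTop (𝓝 x) := by
  let u : ℕ → ℝ := fun i => (((i + 3 : ℕ) : ℝ) + 2) / (i + 3).factorial
  have u0 : ∀ i, 0 < u i := fun i => by positivity
  have ut : Tendsto u atTop (𝓝 0) := by
    refine squeeze_zero (fun i => (u0 i).le) (fun i => ?_)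
      (tendsto_const_div_atTop_nhds_zero_nat 2 |>.comp (tendsto_add_atTop_nat 2))
    have : (1 : ℝ) ≤ (i + 1).factorial := by exact_mod_cast (i + 1).factorial_pos
    simp only [u, Function.comp_apply, Nat.factorial_succ (i + 2), Nat.factorial_succ (i + 1)]
    push_cast
    rw [div_le_div_iff₀ (by positivity) (by positivity)]
    have h : (0 : ℝ) ≤ i := Nat.cast_nonneg _
    have := mul_le_mul_of_nonneg_left this (by positivity : (0 : ℝ) ≤ (i + 2 + 1) * (i + 1 + 1))
    nlinarith
  suffices h : ∃ N : ℕ → ℕ, Tendsto (fun i => 1 / (1 + (((N i + 2 : ℕ) : ℝ) + 1) * u i)) atTop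
      (𝓝 x) by
    obtain ⟨N, hN⟩ := h
    refine ⟨fun i => E (N i + 2) (i + 3), inferInstance, inferInstance, inferInstance,
      tendsto_atTop_mono (fun i => ?_) tendsto_id, hN.congr fun i => ?_⟩
    · rw [Nat.card_congr eqv]; simp; omega
    · rw [ratio_eq (by omega) (by omega)]
  rcases hx.1.eq_or_lt with rfl | h0
  · refine ⟨fun i => (i + 3).factorial, squeeze_zero (fun i => by have := u0 i; positivity)
      (fun i => ?_) tendsto_one_div_add_atTop_nhds_zero_nat⟩
    have a : (0 : ℝ) < (i + 3).factorial := by positivity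
    have b : ((i + 3).factorial : ℝ) * u i = i + 5 := by simp only [u]; field_simp; push_cast; ring
    refine one_div_le_one_div_of_le (by positivity) ?_
    push_cast
    nlinarith [u0 i]
  · set c := (1 - x) / x with hc
    have c0 : 0 ≤ c := div_nonneg (by linarith [hx.2]) h0.le
    refine ⟨fun i => ⌊c / u i⌋₊, ?_⟩
    have : Tendsto (fun i => (((⌊c / u i⌋₊ + 2 : ℕ) : ℝ) + 1) * u i) atTop (𝓝 c) := by
      refine tendsto_of_tendsto_of_tendsto_of_le_of_le tendsto_const_nhds
        (by simpa using (ut.const_mul 3).const_add c) (fun i => ?_) fun i => ?_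
      · have := Nat.lt_floor_add_one (c / u i)
        rw [div_lt_iff₀ (u0 i)] at this
        push_cast; nlinarith [u0 i]
      · have := Nat.floor_le (div_nonneg c0 (u0 i).le)
        rw [le_div_iff₀ (u0 i)] at this
        push_cast; nlinarith
    convert (this.const_add 1).inv₀ (by linarith) using 2
    · rw [one_div]
    · rw [hc]; field_simp; ring

end Pool.Agent.Results.MP_e86a57_co.Lim
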